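import Mathlib

set_option linter.unusedVariables false

open Filter Topology Set

namespace Pool.Agent.Results.MP_8a65de_an.NotOmegaLimit

/-- Open and nonempty. -/
def Opene {X : Type*} [TopologicalSpace X] (U : Set X) : Prop := IsOpen U ∧ U.Nonempty

/-- `N_T(U,V)`: the times `n` at which some point of `U` is in `V`. -/
def hitTimes {X : Type*} (T : X → X) (U V : Set X) : Set ℕ := {n | (U ∩ (T^[n]) ⁻¹' V).Nonempty}

/-- The family `N_T` of all sets of times that contain some `N_T(U,V)` with `U`, `V` opene. -/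
def hitFamily {X : Type*} [TopologicalSpace X] (T : X → X) : Set (Set ℕ) :=
  {A | ∃ U V : Set X, Opene U ∧ Opene V ∧ hitTimes T U V ⊆ A}

/-- The omega-limit set of `x` along the family `N_T`. -/
def omegaHit {X : Type*} [TopologicalSpace X] (T : X → X) (x : X) : Set X :=
  ⋂ F ∈ hitFamily T, closure ((fun i : ℕ => T^[i] x) '' F)

/-- The usual omega-limit set of `y`. -/
def omegaUsual {X : Type*} [TopologicalSpace X] (T : X → X) (y : X) : Set X :=
  ⋂ n ∈ {n : ℕ | 1 ≤ n}, closure ((fun k : ℕ => T^[k] y) '' {k | n ≤ k})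

/-- A dynamical system: a continuous surjection of a space with more than one point and no
isolated points. -/
def IsSystem {X : Type*} [TopologicalSpace X] (T : X → X) : Prop :=
  Continuous T ∧ Function.Surjective T ∧ Nontrivial X ∧ ∀ x : X, ¬ IsOpen ({x} : Set X)

/-- Weak mixing: `T × T` is topologically transitive. -/
def WeaklyMixing {X : Type*} [TopologicalSpace X] (T : X → X) : Prop :=
  ∀ W₁ W₂ : Set (X × X), Opene W₁ → Opene W₂ → (hitTimes (Prod.map T T) W₁ W₂).Nonempty

/-! ### The example -/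

/-- allowed differences -/
def P : Set ℕ := {n | 1 ≤ n ∧ ∀ j : ℕ, ¬ (n ≤ 4 ^ j + j ∧ 4 ^ j ≤ n + j)}

/-- the spacing shift -/
def S : Set (ℕ → Bool) := {u | ∀ i j, i < j → u i = true → u j = true → j - i ∈ P}

lemma isClosed_S : IsClosed S := by
  have : S = ⋂ i, ⋂ j, {u : ℕ → Bool | i < j → u i = true → u j = true → j - i ∈ P} := by
    ext u; simp [S]
  rw [this]
  refine isClosed_iInter fun i => isClosed_iInter fun j => ?_
  by_cases h : i < j ∧ j - i ∉ P
  · have h2 : {u : ℕ → Bool | i < j → u i = true → u j = true → j - i ∈ P}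
        = ({u : ℕ → Bool | u i = true} ∩ {u | u j = true})ᶜ := by
      ext u
      simp only [mem_ofPred_eq, mem_compl_iff, mem_inter_iff]
      constructor
      · intro h3 h4
        exact h.2 (h3 h.1 h4.1 h4.2)
      · intro h3 _ h5 h6
        exact absurd ⟨h5, h6⟩ h3
    rw [h2, isClosed_compl_iff]
    refine IsOpen.inter ?_ ?_
    · exact (isOpen_discrete ({true} : Set Bool)).preimage
        (continuous_apply i : Continuous fun u : ℕ → Bool => u i)
    · exact (isOpen_discrete ({true} : Set Bool)).preimage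
        (continuous_apply j : Continuous fun u : ℕ → Bool => u j)
  · have h2 : {u : ℕ → Bool | i < j → u i = true → u j = true → j - i ∈ P} = univ := by
      ext u
      simp only [mem_ofPred_eq, mem_univ, iff_true]
      intro h3 _ _
      by_contra h4
      exact h ⟨h3, h4⟩
    rw [h2]
    exact isClosed_univ

/-- the space -/
abbrev X : Type := S × (ℕ → Bool)

instance : CompactSpace S := isCompact_iff_compactSpace.mp isClosed_S.isCompact

lemma shift_mem {u : ℕ → Bool} (hu : u ∈ S) (n : ℕ) : (fun i => u (i + n)) ∈ S := by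
  intro i j hij hi hj
  have := hu (i + n) (j + n) (by omega) hi hj
  have h2 : j + n - (i + n) = j - i := by omega
  rwa [h2] at this

/-- the map -/
def T : X → X := fun p => (⟨fun i => p.1.1 (i + 1), shift_mem p.1.2 1⟩, fun i => p.2 (i + 1))

lemma T_iter (n : ℕ) (p : X) :
    T^[n] p = (⟨fun i => p.1.1 (i + n), shift_mem p.1.2 n⟩, fun i => p.2 (i + n)) := by
  induction n generalizing p with
  | zero => rfl
  | succ n ih =>
    rw [Function.iterate_succ_apply, ih]
    refine Prod.ext (Subtype.ext ?_) ?_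
    · funext i
      show p.1.1 (i + n + 1) = p.1.1 (i + (n + 1))
      rfl
    · funext i
      show p.2 (i + n + 1) = p.2 (i + (n + 1))
      rfl

lemma continuous_T : Continuous T := by
  unfold T
  refine Continuous.prodMk ?_ ?_
  · refine Continuous.subtype_mk ?_ _
    refine continuous_pi fun i => ?_
    exact (continuous_apply (i + 1)).comp (continuous_subtype_val.comp continuous_fst)
  · refine continuous_pi fun i => ?_
    exact (continuous_apply (i + 1)).comp continuous_snd

lemma surj_T : Function.Surjective T := by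
  intro p
  have h : (fun i : ℕ => if i = 0 then false else p.1.1 (i - 1)) ∈ S := by
    intro i j hij hi hj
    have hi0 : i ≠ 0 := by
      intro h0
      simp [h0] at hi
    have hj0 : j ≠ 0 := by omega
    simp only [hi0, hj0, if_false] at hi hj
    have := p.1.2 (i - 1) (j - 1) (by omega) hi hj
    have h2 : j - 1 - (i - 1) = j - i := by omega
    rwa [h2] at this
  refine ⟨(⟨_, h⟩, fun i : ℕ => if i = 0 then false else p.2 (i - 1)), ?_⟩
  refine Prod.ext (Subtype.ext ?_) ?_
  · funext i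
    simp [T]
  · funext i
    simp [T]

/-- cylinders form a basis of neighbourhoods -/
lemma cyl {U : Set X} (hU : IsOpen U) {p : X} (hp : p ∈ U) :
    ∃ m : ℕ, ∀ q : X, (∀ i < m, q.1.1 i = p.1.1 i ∧ q.2 i = p.2 i) → q ∈ U := by
  by_contra h
  push Not at h
  choose q hq hq' using h
  have h1 : Tendsto q atTop (𝓝 p) := by
    rw [Prod.tendsto_iff]
    constructor
    · rw [tendsto_subtype_rng, tendsto_pi_nhds]
      intro i
      refine tendsto_const_nhds.congr' ?_
      filter_upwards [eventually_gt_atTop i] with m hm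
      exact ((hq m i hm).1).symm
    · rw [tendsto_pi_nhds]
      intro i
      refine tendsto_const_nhds.congr' ?_
      filter_upwards [eventually_gt_atTop i] with m hm
      exact ((hq m i hm).2).symm
  obtain ⟨m, hm⟩ := (h1.eventually (hU.mem_nhds hp)).exists
  exact hq' m hm

lemma open_fst (i : ℕ) (b : Bool) : IsOpen {q : X | q.1.1 i = b} := by
  have : Continuous (fun q : X => q.1.1 i) :=
    (continuous_apply i).comp (continuous_subtype_val.comp continuous_fst)
  exact (isOpen_discrete {b}).preimage this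

lemma open_snd (i : ℕ) (b : Bool) : IsOpen {q : X | q.2 i = b} := by
  have : Continuous (fun q : X => q.2 i) := (continuous_apply i).comp continuous_snd
  exact (isOpen_discrete {b}).preimage this

lemma zero_mem : (fun _ : ℕ => false) ∈ S := by
  intro i j _ hi
  simp at hi

lemma no_isolated (p : X) : ¬ IsOpen ({p} : Set X) := by
  intro h
  obtain ⟨m, hm⟩ := cyl h (mem_singleton p)
  have h1 := hm (p.1, fun i => if i = m then !(p.2 m) else p.2 i) (by
    intro i hi
    refine ⟨rfl, ?_⟩
    simp [hi.ne])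
  have h2 : (fun i => if i = m then !(p.2 m) else p.2 i) = p.2 := congrArg Prod.snd h1
  have h3 := congrFun h2 m
  simp at h3

lemma four_pow (j : ℕ) : j + 1 ≤ 4 ^ j := by
  induction j with
  | zero => simp
  | succ n ih => rw [pow_succ]; omega

lemma four_pow_ge (L j : ℕ) (h : 2 * L ≤ j) : j + L + 1 ≤ 4 ^ j := by
  induction j with
  | zero => have : L = 0 := by omega
            subst this; simp
  | succ n ih =>
    rcases Nat.lt_or_ge n (2 * L) with h2 | h2
    · have := four_pow n
      rw [pow_succ]; omega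
    · have := ih h2
      rw [pow_succ]; omega

lemma mem_P_of (L n j : ℕ) (hj : 2 * (L + 1) ≤ j) (h1 : 2 * 4 ^ j ≤ n + L) (h2 : n ≤ 2 * 4 ^ j + L) :
    n ∈ P := by
  have h3 := four_pow_ge (L + 1) j hj
  refine ⟨by omega, fun i hi => ?_⟩
  rcases Nat.lt_or_ge j i with h | h
  · -- 4 ^ (j+1) ≤ 4 ^ i
    obtain ⟨k, rfl⟩ := Nat.exists_eq_add_of_lt h
    have h4 : 4 ^ (j + k + 1) = 4 * (4 ^ j * 4 ^ k) := by rw [pow_succ, pow_add]; ring
    have h5 := four_pow k
    have h6 := hi.2
    rw [h4] at h6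
    have h7 : 4 ^ j * (k + 1) ≤ 4 ^ j * 4 ^ k := Nat.mul_le_mul_left _ h5
    have h8 : 4 ^ j * (k + 1) = 4 ^ j * k + 4 ^ j := by ring
    have h9 : k ≤ 4 ^ j * k := Nat.le_mul_of_pos_left _ (by positivity)
    omega
  · have h4 : 4 ^ i ≤ 4 ^ j := Nat.pow_le_pow_right (by norm_num) h
    have := hi.1
    omega

/-- all large numbers `2 · 4 ^ j` are hitting times -/
lemma hit {U V : Set X} (hU : Opene U) (hV : Opene V) :
    ∃ J : ℕ, ∀ j ≥ J, 2 * 4 ^ j ∈ hitTimes T U V := by
  obtain ⟨p, hp⟩ := hU.2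
  obtain ⟨q, hq⟩ := hV.2
  obtain ⟨m₁, hm₁⟩ := cyl hU.1 hp
  obtain ⟨m₂, hm₂⟩ := cyl hV.1 hq
  refine ⟨2 * (m₁ + m₂ + 1), fun j hj => ?_⟩
  set n := 2 * 4 ^ j with hn
  have hbig := four_pow_ge (m₁ + m₂ + 1) j hj
  have hnm : m₁ < n := by omega
  set w : ℕ → Bool := fun i => if i < m₁ then p.1.1 i else
    if n ≤ i ∧ i < n + m₂ then q.1.1 (i - n) else false with hw
  have hwS : w ∈ S := by
    intro a b hab ha hb
    by_cases ha1 : a < m₁
    · by_cases hb1 : b < m₁
      · simp only [hw, ha1, hb1, if_true] at ha hb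
        exact p.1.2 a b hab ha hb
      · by_cases hb2 : n ≤ b ∧ b < n + m₂
        · exact mem_P_of (m₁ + m₂) (b - a) j (by omega) (by omega) (by omega)
        · simp [hw, hb1, hb2] at hb
    · by_cases ha2 : n ≤ a ∧ a < n + m₂
      · have hb1 : ¬ b < m₁ := by omega
        by_cases hb2 : n ≤ b ∧ b < n + m₂
        · simp only [hw, ha1, hb1, if_false, ha2, hb2, and_self, if_true] at ha hb
          have := q.1.2 (a - n) (b - n) (by omega) ha hb
          have h2 : b - n - (a - n) = b - a := by omega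
          rwa [h2] at this
        · simp [hw, hb1, hb2] at hb
      · simp [hw, ha1, ha2] at ha
  set v : ℕ → Bool := fun i => if i < m₁ then p.2 i else
    if n ≤ i ∧ i < n + m₂ then q.2 (i - n) else false with hv
  refine ⟨(⟨w, hwS⟩, v), hm₁ _ ?_, ?_⟩
  · intro i hi
    simp [hw, hv, hi]
  · rw [mem_preimage, T_iter]
    refine hm₂ _ ?_
    intro i hi
    have h1 : ¬ i + n < m₁ := by omega
    have h2 : n ≤ i + n ∧ i + n < n + m₂ := by omega
    simp only [hw, hv, h1, if_false, h2, and_self, if_true, Nat.add_sub_cancel]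

lemma weak : WeaklyMixing T := by
  intro W₁ W₂ h₁ h₂
  obtain ⟨⟨p, p'⟩, hp⟩ := h₁.2
  obtain ⟨⟨q, q'⟩, hq⟩ := h₂.2
  obtain ⟨U, U', hU, hU', hpU, hpU', hUU⟩ := isOpen_prod_iff.mp h₁.1 p p' hp
  obtain ⟨V, V', hV, hV', hqV, hqV', hVV⟩ := isOpen_prod_iff.mp h₂.1 q q' hq
  obtain ⟨J, hJ⟩ := hit ⟨hU, ⟨p, hpU⟩⟩ ⟨hV, ⟨q, hqV⟩⟩
  obtain ⟨J', hJ'⟩ := hit ⟨hU', ⟨p', hpU'⟩⟩ ⟨hV', ⟨q', hqV'⟩⟩
  obtain ⟨r, hr1, hr2⟩ := hJ (max J J') (le_max_left _ _)
  obtain ⟨r', hr1', hr2'⟩ := hJ' (max J J') (le_max_right _ _)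
  refine ⟨2 * 4 ^ (max J J'), (r, r'), hUU ⟨hr1, hr1'⟩, ?_⟩
  rw [mem_preimage, Prod.map_iterate]
  exact hVV ⟨hr2, hr2'⟩

/-- the special point -/
def x0 : X := (⟨fun _ => false, zero_mem⟩, fun i => decide (Nat.log 4 i % 2 = 1))

/-- the two fixed points -/
def fp (b : Bool) : X := (⟨fun _ => false, zero_mem⟩, fun _ => b)

lemma fp_mem (b : Bool) : fp b ∈ omegaHit T x0 := by
  unfold omegaHit
  simp only [mem_iInter]
  rintro F ⟨U, V, hU, hV, hF⟩
  rw [mem_closure_iff]
  intro G hG hbG
  obtain ⟨m, hm⟩ := cyl hG hbG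
  obtain ⟨J, hJ⟩ := hit hU hV
  obtain ⟨j, hjJ, hjm, hjb⟩ : ∃ j, J ≤ j ∧ 2 * m ≤ j ∧ (decide (j % 2 = 1)) = b := by
    cases b
    · exact ⟨2 * (J + m), by omega, by omega, by simp⟩
    · exact ⟨2 * (J + m) + 1, by omega, by omega, by simp⟩
  refine ⟨T^[2 * 4 ^ j] x0, ?_, ⟨2 * 4 ^ j, hF (hJ j hjJ), rfl⟩⟩
  rw [T_iter]
  refine hm _ ?_
  intro i hi
  refine ⟨rfl, ?_⟩
  show decide (Nat.log 4 (i + 2 * 4 ^ j) % 2 = 1) = b
  have h1 := four_pow_ge m j hjm
  have h2 : Nat.log 4 (i + 2 * 4 ^ j) = j := by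
    rw [Nat.log_eq_iff (Or.inr ⟨by norm_num, by omega⟩)]
    constructor
    · omega
    · rw [pow_succ]; omega
  rw [h2]
  exact hjb

/-- Opene sets whose hitting times avoid the transition times. -/
lemma avoid (m : ℕ) : ∃ U V : Set X, Opene U ∧ Opene V ∧
    ∀ n ∈ hitTimes T U V, m < n ∧ n ∈ P := by
  have hone : (fun i : ℕ => decide (i = 0)) ∈ S := by
    intro i j hij hi hj
    simp only [decide_eq_true_eq] at hi hj
    omega
  refine ⟨{q | q.1.1 0 = true} ∩ ⋂ i ∈ Finset.range (m + 1), {q | q.2 i = false},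
    {q | q.1.1 0 = true} ∩ {q | q.2 0 = true}, ⟨?_, ?_⟩, ⟨?_, ?_⟩, ?_⟩
  · exact (open_fst 0 true).inter (isOpen_biInter_finset fun i _ => open_snd i false)
  · refine ⟨(⟨_, hone⟩, fun _ => false), ?_, ?_⟩
    · simp
    · simp
  · exact (open_fst 0 true).inter (open_snd 0 true)
  · exact ⟨(⟨_, hone⟩, fun _ => true), by simp, by simp⟩
  · rintro n ⟨r, ⟨hr1, hr2⟩, hr3⟩
    rw [mem_preimage, T_iter] at hr3
    have h1 : r.1.1 0 = true := hr1
    have h2 : r.1.1 (0 + n) = true := hr3.1
    have h3 : r.2 (0 + n) = true := hr3.2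
    rw [Nat.zero_add] at h2 h3
    have h4 : m < n := by
      by_contra h
      have := mem_iInter₂.mp hr2 n (Finset.mem_range.mpr (by omega))
      have h5 : r.2 n = false := this
      rw [h5] at h3
      exact absurd h3 (by decide)
    refine ⟨h4, ?_⟩
    have := r.1.2 0 n (by omega) h1 h2
    simpa using this

lemma omega_sub {z : X} (hz : z ∈ omegaHit T x0) : ∃ b, z = fp b := by
  have hmem : ∀ (G : Set X), IsOpen G → z ∈ G → ∀ U V : Set X, Opene U → Opene V →
      ∃ n ∈ hitTimes T U V, T^[n] x0 ∈ G := by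
    intro G hG hzG U V hU hV
    unfold omegaHit at hz
    simp only [mem_iInter] at hz
    have h1 := hz (hitTimes T U V) ⟨U, V, hU, hV, le_refl _⟩
    rw [mem_closure_iff] at h1
    obtain ⟨_, h2, n, hn, rfl⟩ := h1 G hG hzG
    exact ⟨n, hn, h2⟩
  -- first coordinate
  have hfst : ∀ i, z.1.1 i = false := by
    intro i
    obtain ⟨U, V, hU, hV, _⟩ := avoid 0
    obtain ⟨n, _, hn⟩ := hmem {q | q.1.1 i = z.1.1 i} (open_fst i _) rfl U V hU hV
    rw [T_iter] at hn
    have h1 : false = z.1.1 i := hn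
    exact h1.symm
  -- second coordinate
  have hsnd : ∀ k, z.2 (k + 1) = z.2 k := by
    intro k
    by_contra hne
    obtain ⟨U, V, hU, hV, hUV⟩ := avoid (4 ^ (k + 1))
    obtain ⟨n, hn1, hn⟩ := hmem ({q | q.2 k = z.2 k} ∩ {q | q.2 (k + 1) = z.2 (k + 1)})
      ((open_snd _ _).inter (open_snd _ _)) ⟨rfl, rfl⟩ U V hU hV
    obtain ⟨hn2, hnP⟩ := hUV n hn1
    rw [T_iter] at hn
    have h1 : decide (Nat.log 4 (k + n) % 2 = 1) = z.2 k := hn.1
    have h2 : decide (Nat.log 4 (k + 1 + n) % 2 = 1) = z.2 (k + 1) := hn.2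
    have hlog : Nat.log 4 (k + n) ≠ Nat.log 4 (k + 1 + n) := by
      intro h
      apply hne
      rw [← h1, ← h2, h]
    set j := Nat.log 4 (k + n) with hj
    have hn0 : 0 < n := lt_of_le_of_lt (Nat.zero_le _) hn2
    have hpos : k + n ≠ 0 := by omega
    have h3 : 4 ^ j ≤ k + n := Nat.pow_log_le_self 4 hpos
    have h4 : k + n < 4 ^ (j + 1) := Nat.lt_pow_succ_log_self (by norm_num) _
    have h5 : k + n + 1 = 4 ^ (j + 1) := by
      by_contra h
      apply hlog
      symm
      rw [Nat.log_eq_iff (Or.inr ⟨by norm_num, by omega⟩)]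
      constructor
      · omega
      · omega
    have h6 : k + 1 ≤ j := by
      by_contra h
      have h7 : 4 ^ (j + 1) ≤ 4 ^ (k + 1) := Nat.pow_le_pow_right (by norm_num) (by omega)
      omega
    exact hnP.2 (j + 1) ⟨by omega, by omega⟩
  refine ⟨z.2 0, Prod.ext (Subtype.ext (funext hfst)) ?_⟩
  funext k
  induction k with
  | zero => rfl
  | succ k ih => rw [hsnd k, ih]; rfl

lemma not_usual (y : X) : omegaUsual T y ≠ omegaHit T x0 := by
  intro h
  have hω : ∀ z, z ∈ omegaUsual T y → ∃ b, z = fp b := fun z hz => omega_sub (h ▸ hz)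
  -- eventually in `A ∪ B`
  set C : Set X := {q | q.2 0 = q.2 1}ᶜ with hC
  have hclopen : IsClosed C := by
    have h1 : C = ({q | q.2 0 = true} ∩ {q | q.2 1 = false}) ∪
        ({q | q.2 0 = false} ∩ {q | q.2 1 = true}) := by
      ext q
      simp only [hC, mem_compl_iff, mem_ofPred_eq, mem_union, mem_inter_iff]
      cases q.2 0 <;> cases q.2 1 <;> simp
    have h2 : ∀ i b, IsClosed {q : X | q.2 i = b} := by
      intro i b
      have : Continuous (fun q : X => q.2 i) := (continuous_apply i).comp continuous_snd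
      exact (isClosed_discrete {b}).preimage this
    rw [h1]
    exact ((h2 _ _).inter (h2 _ _)).union ((h2 _ _).inter (h2 _ _))
  have hmemω : ∀ z, MapClusterPt z atTop (fun n => T^[n] y) → z ∈ omegaUsual T y := by
    intro z hz
    unfold omegaUsual
    simp only [mem_iInter]
    intro n _
    rw [mem_closure_iff]
    intro G hG hzG
    have h1 := (mapClusterPt_iff_frequently.mp hz) G (hG.mem_nhds hzG)
    obtain ⟨k, hk, hkG⟩ := (h1.and_eventually (eventually_ge_atTop n)).exists
    exact ⟨T^[k] y, hk, ⟨k, hkG, rfl⟩⟩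
  have hev : ∀ᶠ n in atTop, T^[n] y ∉ C := by
    by_contra hcon
    have hfr : ∃ᶠ n in atTop, T^[n] y ∈ C := by
      simpa [Filter.Frequently] using hcon
    obtain ⟨z, hzC, hz⟩ := hclopen.isCompact.exists_mapClusterPt_of_frequently hfr
    obtain ⟨b, rfl⟩ := hω z (hmemω z hz)
    exact hzC rfl
  obtain ⟨N, hN⟩ := eventually_atTop.mp hev
  -- the second coordinate is eventually constant
  have hconst : ∀ n ≥ N, y.2 n = y.2 N := by
    intro n hn
    induction n, hn using Nat.le_induction with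
    | base => rfl
    | succ n hn ih =>
      have h1 := hN n hn
      rw [T_iter] at h1
      simp only [hC, mem_compl_iff, mem_ofPred_eq, not_not] at h1
      rw [Nat.zero_add, Nat.add_comm 1 n] at h1
      rw [← h1, ih]
  -- contradiction with the other fixed point
  have hfp : fp (!(y.2 N)) ∈ omegaUsual T y := by
    rw [h]
    exact fp_mem _
  unfold omegaUsual at hfp
  simp only [mem_iInter] at hfp
  have h1 := hfp (N + 1) (by simp)
  rw [mem_closure_iff] at h1
  obtain ⟨_, h2, k, hk, rfl⟩ := h1 {q | q.2 0 = !(y.2 N)} (open_snd _ _) rfl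
  simp only [mem_ofPred_eq] at hk
  have h2 : (T^[k] y).2 0 = !(y.2 N) := h2
  rw [T_iter] at h2
  have h3 : y.2 (0 + k) = !(y.2 N) := h2
  rw [Nat.zero_add, hconst k (by omega)] at h3
  cases h4 : y.2 N <;> simp [h4] at h3

instance : Nontrivial X := ⟨⟨fp false, fp true, fun h => by
  have := congrFun (congrArg Prod.snd h) 0
  exact absurd this (by decide)⟩⟩

/-- **Negative answer.** There are a compact metric space `X` without isolated points (and with
more than one point), a continuous surjection `T` of `X` which is weakly mixing, and a point `x`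
such that the omega-limit set of `x` along the family of return time sets is not the usual
omega-limit set of any point of `X`. -/
theorem result : ∃ (X : Type) (_ : MetricSpace X) (_ : CompactSpace X) (T : X → X) (x : X),
    IsSystem T ∧ WeaklyMixing T ∧ ∀ y : X, omegaUsual T y ≠ omegaHit T x := by
  let _ : MetricSpace X := TopologicalSpace.metrizableSpaceMetric X
  exact ⟨X, inferInstance, inferInstance, T, x0,
    ⟨continuous_T, surj_T, inferInstance, no_isolated⟩, weak, not_usual⟩

end Pool.Agent.Results.MP_8a65de_an.NotOmegaLimit
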